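import Pool.Agent.MP_ecfd11_lc.H3E.ER

/-!
Definable families with the approximation property lie in HOD.
-/

set_option synthInstance.maxSize 4000

namespace Pool.Agent.MP_ecfd11_lc.H3E

open Pool.Agent.MP_ecfd11_lc.H20 Pool.Agent.MP_ecfd11_lc.H13X Pool.Agent.MP_ecfd11_lc.H3U

universe u

open ZFSet Cardinal Function Filter

variable {a Z F τ n c : ZFSet.{u}}

theorem small_fam (hZ : HOD Set.univ Z) (hF : OD Set.univ F) (h1 : ∀ σ ∈ F, σ ⊆ Z)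
    (h2 : 2 ^ card F < card a) (h3 : τ ∈ F) (h4 : Apx a Z τ) : HOD Set.univ τ := by
  obtain ⟨k, k0, k1, k2⟩ := od_enum hZ.self fun x hx => (hZ.mem hx).self
  have := Tm.one (C := Set.univ) (A := On) k
  have := hod_tm hZ
  have := od_iff.1 hF
  obtain ⟨W, hW⟩ : ∃ W : ZFSet.{u}, W = Z.sep fun z =>
      ∀ y, y ∈ Z → (F.sep fun σ => y ∈ σ) = (F.sep fun σ => z ∈ σ) → k y ∉ k z := ⟨_, rfl⟩
  have w0 : W ⊆ Z := hW ▸ sep_subset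
  have w1 : HOD Set.univ W := hod_sub hZ w0 (od_iff.2 (hW ▸ inferInstance))
  have w2 : ∀ z ∈ Z, ∃ w ∈ W, (F.sep fun σ => w ∈ σ) = F.sep fun σ => z ∈ σ := fun z hz => by
    obtain ⟨w, ⟨h5, h6⟩, h7⟩ := (InvImage.wf k mem_wf).has_min
      {y | y ∈ Z ∧ (F.sep fun σ => y ∈ σ) = F.sep fun σ => z ∈ σ} ⟨z, hz, rfl⟩
    exact ⟨w, hW ▸ mem_sep.2 ⟨h5, fun y hy e => h7 y ⟨hy, e.trans h6⟩⟩, h6⟩
  have w3 : card W ≤ 2 ^ card F := by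
    rw [← card_powerset]
    refine card_le_of_inj (fun z => F.sep fun σ => z ∈ σ)
      (fun _ _ => mem_powerset.2 sep_subset) fun x hx y hy e => ?_
    rw [hW] at hx hy
    obtain ⟨x1, x2⟩ := mem_sep.1 hx
    obtain ⟨y1, y2⟩ := mem_sep.1 hy
    rcases (k1.mem (mem_img.2 ⟨x, x1, rfl⟩)).mem_trichotomous (k1.mem (mem_img.2 ⟨y, y1, rfl⟩))
      with h | h | h
    exacts [absurd h (y2 x x1 e), k2 x x1 y y1 h, absurd h (x2 y y1 e.symm)]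
  have := hod_tm (h4 W w1 w0 (w3.trans_lt h2).not_ge)
  have key : ∀ w z : ZFSet.{u}, (F.sep fun σ => w ∈ σ) = (F.sep fun σ => z ∈ σ) → w ∈ τ → z ∈ τ :=
    fun w z e h => (mem_sep.1 (e ▸ mem_sep.2 ⟨h3, h⟩ : τ ∈ F.sep fun σ => z ∈ σ)).2
  have e : τ = Z.sep fun z =>
      ∃ w, w ∈ τ ∩ W ∧ (F.sep fun σ => w ∈ σ) = F.sep fun σ => z ∈ σ := by
    refine ZFSet.ext fun z => ⟨fun hz => ?_, fun hz => ?_⟩
    · obtain ⟨w, h5, h6⟩ := w2 z (h1 τ h3 hz)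
      exact mem_sep.2 ⟨h1 τ h3 hz, w, mem_inter.2 ⟨key z w h6.symm hz, h5⟩, h6⟩
    · obtain ⟨-, w, h5, h6⟩ := mem_sep.1 hz
      exact key w z h6 (mem_inter.1 h5).1
  generalize τ ∩ W = T at this e
  exact hod_sub hZ (h1 τ h3) (od_iff.2 (e ▸ inferInstance))

theorem min_fam (sl : ∀ k < card a, 2 ^ k < card a) (unc : ℵ₀ < card a) (hn : Unc n)
    (c1 : Club n c) (c2 : card c < card a) (hZ : HOD Set.univ Z) (hF : OD Set.univ F)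
    (h1 : ∀ σ ∈ F, σ ⊆ Z ∧ Apx a Z σ) (f : ZFSet.{u} → ZFSet.{u} → ZFSet.{u})
    (ho : ∀ σ ∈ F, ∀ i ∈ n, (f σ i).IsOrdinal)
    (hne : ∀ τ ∈ F, ∀ σ ∈ F, τ ≠ σ → ∀ᶠ i in cf n hn, f τ i ≠ f σ i)
    (R : ZFSet.{u} → ZFSet.{u} → Prop) [Df Set.univ On (fun v => R (v 0) (v 1))]
    (hR : ∀ τ ∈ F, ∀ σ ∈ F, R τ σ ↔ ∀ᶠ i in cf n hn, f τ i ∈ f σ i) :
    ∀ τ ∈ F, HOD Set.univ τ := by
  have := Df.two (C := Set.univ) (A := On) R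
  have := od_iff.1 hF
  have := neBot (S := n) hn fun ⟨e, e1, e2⟩ => by
    obtain ⟨x, x1, -⟩ := e1.2.1 _ hn.empty_mem
    exact e2 x (e1.1 x1) x1
  have wf : WellFounded fun t s => ∀ᶠ i in cf n hn, f t i ∈ f s i := by
    rw [wellFounded_iff_isEmpty_descending_chain]
    refine ⟨fun ⟨G, hG⟩ => ?_⟩
    obtain ⟨i, hi⟩ := (ev_nat (S := n) hn (p := fun m i => f (G (m + 1)) i ∈ f (G m) i) hG).exists
    exact (wellFounded_iff_isEmpty_descending_chain.1 mem_wf).false ⟨fun m => f (G m) i, hi⟩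
  intro t ht
  by_contra h0
  obtain ⟨z, ⟨w1, w2⟩, w3⟩ := wf.has_min {t | t ∈ F ∧ ¬ HOD Set.univ t} ⟨t, ht, h0⟩
  obtain ⟨M, hM⟩ : ∃ M, M = F.sep fun t => ¬ HOD Set.univ t ∧
    ∀ s, s ∈ F → ¬ HOD Set.univ s → ¬ R s t := ⟨_, rfl⟩
  have m1 : ∀ x ∈ M, x ∈ F := fun x hx => (mem_sep.1 (hM ▸ hx)).1
  refine w2 (small_fam (a := a) (F := M) hZ (by rw [hM]; exact od_iff.2 inferInstance)
    (fun x hx => (h1 x (m1 x hx)).1) (sl _ ((er M c f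
      (fun x hx i hi => ho x (m1 x hx) i (c1.1 hi)) fun y hy x hx e => ?_).trans_lt
        (sl _ (max_lt unc c2))))
    (hM ▸ mem_sep.2 ⟨w1, w2, fun s s1 s2 s3 => w3 s ⟨s1, s2⟩ ((hR s s1 z w1).1 s3)⟩) (h1 z w1).2)
  have x3 := (mem_sep.1 (hM ▸ hx : x ∈ _)).2.2 y (m1 y hy) (mem_sep.1 (hM ▸ hy : y ∈ _)).2.1
  rw [hR y (m1 y hy) x (m1 x hx)] at x3
  obtain ⟨i, i1, i2, i3, -, i4⟩ := ((not_eventually.1 x3).and_eventually
    ((hne y (m1 y hy) x (m1 x hx) e).and ((ev_club hn c1).and (ev_mem hn)))).exists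
  rcases (ho y (m1 y hy) i i4).mem_trichotomous (ho x (m1 x hx) i i4) with h | h | h
  exacts [absurd h i1, absurd h i2, ⟨i, i3, h⟩]

theorem lemB (sl : ∀ k < card a, 2 ^ k < card a) (unc : ℵ₀ < card a) (hn : Unc n)
    (c1 : Club n c) (c2 : card c < card a) (hZ : HOD Set.univ Z) (W : ZFSet.{u} → ZFSet.{u})
    [Tm Set.univ On (fun v => W (v 0))]
    (w1 : ∀ z ∈ Z, ∃ r ∈ n, ∀ s ∈ n, r ∈ s → z ∈ W s) (h1 : τ ⊆ Z) (h2 : Apx a Z τ)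
    (h3 : ∀ r ∈ n, HOD Set.univ (τ ∩ W r)) : HOD Set.univ τ := by
  have : Tm Set.univ On (fun _ => n) := Tm.ofOrd hn.1
  have : Tm Set.univ On (fun _ => (card a).ord.toZFSet) := Tm.ofOrd (isOrdinal_toZFSet _)
  have := hod_tm hZ
  have := Tm.one (C := Set.univ) (A := On) W
  obtain ⟨m, mo, e, e0, e1, e2⟩ := od_rank ((powerset Z).sep (HOD Set.univ))
    fun x hx => (mem_sep.1 hx).2.self
  have := Tm.one (C := Set.univ) (A := On) e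
  have ap : ∀ x, Apx (card a).ord.toZFSet Z x ↔ Apx a Z x := fun x => by
    simp only [Apx, card_ord']
  obtain ⟨F, hF⟩ : ∃ F, F = (powerset Z).sep fun x => (∀ r, r ∈ n → HOD Set.univ (x ∩ W r)) ∧
    Apx (card a).ord.toZFSet Z x := ⟨_, rfl⟩
  have f1 : ∀ x ∈ F, x ⊆ Z := fun x hx => mem_powerset.1 (mem_sep.1 (hF ▸ hx)).1
  have b1 : ∀ x ∈ F, ∀ r ∈ n, x ∩ W r ∈ (powerset Z).sep (HOD Set.univ) := fun x hx r hr =>
    mem_sep.2 ⟨mem_powerset.2 fun z hz => f1 x hx (mem_inter.1 hz).1,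
      (mem_sep.1 (hF ▸ hx)).2.1 r hr⟩
  refine min_fam sl unc hn c1 c2 hZ (by rw [hF]; exact od_iff.2 inferInstance)
    (fun x hx => ⟨f1 x hx, (ap x).1 (mem_sep.1 (hF ▸ hx)).2.2⟩)
    (fun x r => e (x ∩ W r)) (fun x hx r hr => mo.mem (e1 _ (b1 x hx r hr)))
    (fun x hx y hy h => ?_) (fun x y => Null n (n.sep fun r => ¬ e (x ∩ W r) ∈ e (y ∩ W r)))
    (fun _ _ _ _ => Iff.rfl) τ (hF ▸ mem_sep.2 ⟨mem_powerset.2 h1, h3, (ap τ).2 h2⟩)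
  obtain ⟨z, hz⟩ : ∃ z, ¬ (z ∈ x ↔ z ∈ y) := not_forall.1 fun h1 => h (ZFSet.ext h1)
  obtain ⟨r, r1, r2⟩ := w1 z (by_contra fun h1 =>
    hz ⟨fun h2 => absurd (f1 x hx h2) h1, fun h2 => absurd (f1 y hy h2) h1⟩)
  filter_upwards [ev_above hn r1, ev_mem hn] with b d1 d2 d3
  have d4 := ZFSet.ext_iff.1 (e2 _ (b1 x hx b d2.2) _ (b1 y hy b d2.2) d3) z
  simp only [mem_inter, r2 b d2.2 d1, and_true] at d4
  exact hz d4

end Pool.Agent.MP_ecfd11_lc.H3E
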