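import Pool.Agent.MP_ecfd11_lc.H3E.Base

/-!
Amenability of the extenders.
-/

set_option synthInstance.maxSize 4000

namespace Pool.Agent.MP_ecfd11_lc.H3E

open Pool.Agent.MP_ecfd11_lc.H20 Pool.Agent.MP_ecfd11_lc.H13X Pool.Agent.MP_ecfd11_lc.H3U

universe u

open ZFSet Cardinal Function Filter

variable {t L g : ZFSet.{u}} {B : ZFSet.{u} → ZFSet.{u}}

theorem Good.code (h : Good t B L) (hg : HOD Set.univ g) (g1 : IsFunc L (Lev L) g) :
    ∃ w ∈ L, ∀ i ∈ L, ∀ x ∈ L, app g i = B x ∩ vC Set.univ L →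
      ∀ z, z ∈ B x ↔ pair i z ∈ B w := by
  have := hod_tm hg
  have : Tm Set.univ On (fun _ => L) := Tm.ofOrd h.ord
  obtain ⟨U, hU⟩ : ∃ U : ZFSet.{u},
      U = (prod L (vC Set.univ L)).sep fun p => snd p ∈ app g (fst p) := ⟨_, rfl⟩
  have h0 : OD Set.univ U := od_iff.2 (hU ▸ inferInstance)
  have hm : ∀ p, p ∈ U ↔ ∃ i ∈ L, ∃ z ∈ vC Set.univ L, p = pair i z ∧ z ∈ app g i := fun p => by
    rw [hU, mem_sep, mem_prod]
    constructor
    · rintro ⟨⟨i, hi, z, hz, rfl⟩, h1⟩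
      exact ⟨i, hi, z, hz, rfl, by simpa only [fst_pair, snd_pair] using h1⟩
    · rintro ⟨i, hi, z, hz, rfl, h1⟩
      exact ⟨⟨i, hi, z, hz, rfl⟩, by simpa only [fst_pair, snd_pair] using h1⟩
  have h1 : U ∈ Lev L := by
    refine (mem_Lev h.ord).2 ⟨fun p hp => ?_, hod_of h0 fun p hp => ?_⟩
    · obtain ⟨i, hi, z, hz, rfl, -⟩ := (hm p).1 hp
      exact (pair_vC h.ord h.lim).2 ⟨mem_vC h.ord hi, hz⟩
    · obtain ⟨i, hi, z, -, rfl, h2⟩ := (hm p).1 hp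
      exact hod_pair (hod_ord (h.ord.mem hi)) ((hod_app hg g1 hi).mem h2)
  obtain ⟨w, hw, e⟩ := h.tr U h1
  refine ⟨w, hw, fun i hi x hx e' => h.s2 w hw x hx i hi fun z hz => ⟨fun h2 => ?_, fun h2 => ?_⟩⟩
  · have h3 : pair i z ∈ U := (hm _).2 ⟨i, hi, z, hz, rfl, e' ▸ mem_inter.2 ⟨h2, hz⟩⟩
    rw [e] at h3
    exact (mem_inter.1 h3).1
  · have h3 : pair i z ∈ U :=
      e ▸ mem_inter.2 ⟨h2, (pair_vC h.ord h.lim).2 ⟨mem_vC h.ord hi, hz⟩⟩
    obtain ⟨i', -, z', -, e1, h4⟩ := (hm _).1 h3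
    obtain ⟨rfl, rfl⟩ := pair_inj.1 e1
    rw [e'] at h4
    exact (mem_inter.1 h4).1

theorem Good.am (h : Good t B L) (hg : HOD Set.univ g) (g1 : IsFunc L (Lev L) g) {W : ZFSet.{u}}
    (hW : HOD Set.univ W) (h1 : ∀ x y, pair x y ∈ W → ∃ i, pair i x ∈ g) :
    HOD Set.univ (Ex B L ∩ W) := by
  obtain ⟨w, hw, hc⟩ := h.code hg g1
  have := hod_tm hg
  have := hod_tm hW
  have := hod_tm (h.hod w hw)
  have := hod_tm (hod_Lev (ord_succ h.ord))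
  have : Tm Set.univ On (fun _ => L) := Tm.ofOrd h.ord
  have e : Ex B L ∩ W = W.sep fun p => ∃ i, i ∈ L ∧ p = pair (app g i) (snd p) ∧
      snd p ∈ Lev (insert L L) ∧ pair i (snd p) ∈ B w := by
    refine ZFSet.ext fun p => ?_
    rw [mem_inter, mem_sep]
    constructor
    · rintro ⟨h2, h3⟩
      obtain ⟨x, -, y, -, rfl⟩ := mem_prod.1 (Ex_sub h2)
      obtain ⟨-, h4, v, hv, h5, h6⟩ := mem_Ex.1 h2
      obtain ⟨i, hi⟩ := h1 x y h3
      have hi' : i ∈ L := (pair_mem_prod.1 (g1.1 hi)).1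
      have h7 : app g i = x := g1.app_eq hi
      rw [snd_pair]
      exact ⟨h3, i, hi', by rw [h7], h4, (hc i hi' v hv (h7.trans h5) y).1 h6⟩
    · rintro ⟨h2, i, hi, h3, h4, h5⟩
      obtain ⟨v, hv, h6⟩ := h.tr _ (g1.app_mem' hi)
      refine ⟨?_, h2⟩
      rw [h3]
      exact mem_Ex.2 ⟨g1.app_mem' hi, h4, v, hv, h6, (hc i hi v hv h6 _).2 h5⟩
  exact hod_sub hW (fun _ hz => (mem_inter.1 hz).2) (od_iff.2 (e ▸ inferInstance))

theorem Good.apx (h : Good t B L) :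
    Apx L (prod (Lev L) (Lev (insert L L))) (Ex B L) := by
  intro W hW h1 h2
  have hx : ∀ x ∈ img fst W, x ∈ Lev L := fun x hx => by
    obtain ⟨p, hp, rfl⟩ := mem_img.1 hx
    obtain ⟨x, hx, y, -, rfl⟩ := mem_prod.1 (h1 hp)
    rwa [fst_pair]
  have hX : HOD Set.univ (img fst W) := hod_img hW.self fst fun p hp =>
    ((mem_Lev h.ord).1 (hx _ (mem_img.2 ⟨p, hp, rfl⟩))).2
  obtain ⟨k, k0, k1, k2⟩ := od_enum hX.self fun x hx => (hX.mem hx).self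
  have := Tm.one (C := Set.univ) (A := On) k
  have := hod_tm hX
  have hk : img k (img fst W) ∈ L := (k1.mem_or_subset h.ord).resolve_right fun h3 =>
    h2 ((card_mono h3).trans ((card_img_le _ _).trans (card_img_le _ _)))
  have hF : ∀ x ∈ img fst W, ⋃₀ ((img fst W).sep fun z => k z = k x) = x := fun x hx => by
    refine ZFSet.ext fun z => ?_
    rw [mem_sUnion]
    constructor
    · rintro ⟨y, hy, hz⟩
      obtain ⟨h3, h4⟩ := mem_sep.1 hy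
      exact k2 y h3 x hx h4 ▸ hz
    · exact fun hz => ⟨x, mem_sep.2 ⟨hx, rfl⟩, hz⟩
  have hF' : ∀ i, ⋃₀ ((img fst W).sep fun z => k z = i) ∈ Lev L := fun i => by
    by_cases hi : ∃ x ∈ img fst W, k x = i
    · obtain ⟨x, h3, rfl⟩ := hi
      rw [hF x h3]
      exact hx x h3
    · have e : ⋃₀ ((img fst W).sep fun z => k z = i) = ∅ := by
        refine (eq_empty _).2 fun z hz => ?_
        obtain ⟨y, hy, -⟩ := mem_sUnion.1 hz
        exact hi ⟨y, mem_sep.1 hy⟩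
      rw [e]
      exact (mem_Lev h.ord).2 ⟨empty_subset _, hod_ord isOrdinal_empty⟩
  have g1 : IsFunc L (Lev L) (gr (fun i => ⋃₀ ((img fst W).sep fun z => k z = i)) L) :=
    isFunc_gr fun i _ => hF' i
  refine h.am (hod_grA (hod_ord h.ord) _ fun i _ => ((mem_Lev h.ord).1 (hF' i)).2) g1 hW
    fun x y hp => ⟨k x, ?_⟩
  have h3 : x ∈ img fst W := mem_img.2 ⟨_, hp, fst_pair ..⟩
  have h4 : k x ∈ L := h.ord.mem_trans (mem_img.2 ⟨x, h3, rfl⟩) hk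
  have h5 := g1.app_mem h4
  rwa [app_gr h4, hF x h3] at h5

end Pool.Agent.MP_ecfd11_lc.H3E
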