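import Pool.Agent.MP_ecfd11_lc.H3U.SDefs

/-!
The successor bound in HOD.
-/

namespace Pool.Agent.MP_ecfd11_lc.H3E

universe u

open ZFSet

/-- In HOD, `|X| ≤ |A|⁺`: some `f ∈ HOD` maps an ordinal `n` onto `X`, and for every `r < n` the
range of some `g : A → n` in HOD contains `r + 1`. -/
def Succ (A X : ZFSet.{u}) : Prop :=
  ∃ n f : ZFSet.{u}, n.IsOrdinal ∧ HOD Set.univ f ∧ IsFunc n X f ∧ (∀ x ∈ X, ∃ r, pair r x ∈ f) ∧
    ∀ r ∈ n, ∃ g, HOD Set.univ g ∧ IsFunc A n g ∧ ∀ i ∈ insert r r, ∃ z, pair z i ∈ g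

end Pool.Agent.MP_ecfd11_lc.H3E
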