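import Pool.Agent.MP_ecfd11_lc.H3U.SFull
import Pool.Agent.MP_ecfd11_lc.H3E.Defs

/-!
Approximation, covers and good points.
-/

set_option synthInstance.maxSize 4000

namespace Pool.Agent.MP_ecfd11_lc.H3E

open Pool.Agent.MP_ecfd11_lc.H20 Pool.Agent.MP_ecfd11_lc.H13X Pool.Agent.MP_ecfd11_lc.H3U

universe u

open ZFSet Cardinal Function Filter

variable {a x y z f g A X Y Z : ZFSet.{u}}

theorem hod_of (h : OD Set.univ x) (h' : ∀ y ∈ x, HOD Set.univ y) : HOD Set.univ x :=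
  hereditarily_iff.2 ⟨h, h'⟩

theorem hod_sub (hZ : HOD Set.univ Z) (h : X ⊆ Z) (h' : OD Set.univ X) : HOD Set.univ X :=
  hod_of h' fun _ hy => hZ.mem (h hy)

theorem hod_tm (h : HOD Set.univ x) : Tm Set.univ On (fun _ => x) := od_iff.1 h.self

theorem hod_pair (hx : HOD Set.univ x) (hy : HOD Set.univ y) : HOD Set.univ (pair x y) := by
  have h1 := hod_upair hx hx
  rw [ZFSet.pair_eq_singleton] at h1
  exact hod_upair h1 (hod_upair hx hy)

theorem hod_fst (hf : HOD Set.univ f) (h : pair x y ∈ f) : HOD Set.univ x :=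
  ((hf.mem h).mem (show {x} ∈ pair x y by simp [pair])).mem (mem_singleton.2 rfl)

theorem hod_snd (hf : HOD Set.univ f) (h : pair x y ∈ f) : HOD Set.univ y :=
  ((hf.mem h).mem (show {x, y} ∈ pair x y by simp [pair])).mem (by simp)

theorem hod_prod (hX : HOD Set.univ X) (hY : HOD Set.univ Y) : HOD Set.univ (prod X Y) := by
  have := hod_tm hX
  have := hod_tm hY
  refine hod_of (od_iff.2 inferInstance) fun z hz => ?_
  obtain ⟨x, hx, y, hy, rfl⟩ := mem_prod.1 hz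
  exact hod_pair (hX.mem hx) (hY.mem hy)

theorem hod_inter (hX : HOD Set.univ X) (hY : OD Set.univ Y) : HOD Set.univ (X ∩ Y) := by
  have := hod_tm hX
  have := od_iff.1 hY
  exact hod_sub hX (fun _ h => (mem_inter.1 h).1) (od_iff.2 inferInstance)

theorem hod_grA (hA : HOD Set.univ A) (F : ZFSet.{u} → ZFSet.{u})
    [hF : Tm Set.univ On (fun v => F (v 0))] (h : ∀ i ∈ A, HOD Set.univ (F i)) :
    HOD Set.univ (gr F A) := by
  have := hod_tm hA
  refine hod_of (od_iff.2 (Tm.gr (fun _ => A) (fun _ => F) (h := hF))) fun z hz => ?_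
  obtain ⟨i, hi, rfl⟩ := mem_img.1 hz
  exact hod_pair (hA.mem hi) (h i hi)

theorem hod_img (hA : OD Set.univ A) (F : ZFSet.{u} → ZFSet.{u})
    [hF : Tm Set.univ On (fun v => F (v 0))] (h : ∀ i ∈ A, HOD Set.univ (F i)) :
    HOD Set.univ (img F A) := by
  have := od_iff.1 hA
  refine hod_of (od_iff.2 (Tm.img (fun _ => A) (fun _ => F) (h := hF))) fun z hz => ?_
  obtain ⟨i, hi, rfl⟩ := mem_img.1 hz
  exact h i hi

theorem hod_app (hf : HOD Set.univ f) (h : IsFunc A X f) (hx : x ∈ A) : HOD Set.univ (app f x) :=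
  hod_snd hf (h.app_mem hx)

theorem ord_succ (ha : a.IsOrdinal) : (insert a a).IsOrdinal := isOrdinal_succ ha

theorem hod_Lev (ha : a.IsOrdinal) : HOD Set.univ (Lev a) := by
  have : Tm Set.univ On (fun _ => insert a a) := Tm.ofOrd (ord_succ ha)
  have e : Lev a = (vC Set.univ (insert a a)).sep fun x => HOD Set.univ x := by
    rw [Lev, vC_ord (ord_succ ha), rank_insert, max_eq_left (Order.le_succ _),
      Order.succ_eq_add_one]
  exact hod_of (od_iff.2 (e ▸ inferInstance)) fun x hx => ((mem_Lev ha).1 hx).2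

theorem mem_P (ha : a.IsOrdinal) : y ∈ Lev (insert a a) ↔ y ⊆ Lev a ∧ HOD Set.univ y := by
  have e : vC Set.univ (insert a a) = vonNeumann (a.rank + 1) := by
    rw [vC_ord (ord_succ ha), rank_insert, max_eq_left (Order.le_succ _), Order.succ_eq_add_one]
  rw [mem_Lev (ord_succ ha), e]
  exact and_congr_left fun h => ⟨fun h1 z hz => mem_sep.2 ⟨h1 hz, h.mem hz⟩,
    fun h1 z hz => (mem_sep.1 (h1 hz)).1⟩

theorem mem_vC (ha : a.IsOrdinal) (hx : x ∈ a) : x ∈ vC Set.univ a :=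
  (mem_vC_ord ha).2 (rank_lt_of_mem hx)

theorem succ_lt (ha : a.IsOrdinal) (la : ∀ b ∈ a, ∃ c ∈ a, b ∈ c) {o : Ordinal.{u}}
    (h : o < rank a) : o + 1 < rank a := by
  obtain ⟨c, c1, c2⟩ := exists_level (z := o.toZFSet) ha la (by rwa [Ordinal.rank_toZFSet])
  rw [Ordinal.rank_toZFSet] at c2
  exact (Order.add_one_le_of_lt c2).trans_lt (rank_lt_of_mem c1)

theorem pair_vC (ha : a.IsOrdinal) (la : ∀ b ∈ a, ∃ c ∈ a, b ∈ c) :
    pair x y ∈ vC Set.univ a ↔ x ∈ vC Set.univ a ∧ y ∈ vC Set.univ a := by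
  simp only [mem_vC_ord ha]
  have h1 : rank x < rank (pair x y) := (rank_lt_of_mem (mem_singleton.2 rfl)).trans
    (rank_lt_of_mem (show {x} ∈ pair x y by simp [pair]))
  have h2 : rank y < rank (pair x y) := (rank_lt_of_mem (show y ∈ ({x, y} : ZFSet.{u}) by
    simp)).trans (rank_lt_of_mem (show {x, y} ∈ pair x y by simp [pair]))
  refine ⟨fun h => ⟨h1.trans h, h2.trans h⟩, fun h => ?_⟩
  simp only [pair, rank_insert, rank_singleton, Order.succ_eq_add_one, max_lt_iff]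
  exact ⟨succ_lt ha la (succ_lt ha la h.1),
    succ_lt ha la (max_lt (succ_lt ha la h.1) (succ_lt ha la h.2))⟩

/-- Composition of functions in HOD. -/
theorem hod_comp {B C : ZFSet.{u}} (hA : HOD Set.univ A) (hg : HOD Set.univ g) (g1 : IsFunc A B g)
    (hf : HOD Set.univ f) (f1 : IsFunc B C f) :
    HOD Set.univ (gr (fun x => app f (app g x)) A) ∧
      IsFunc A C (gr (fun x => app f (app g x)) A) := by
  have := hod_tm hg
  have := hod_tm hf
  exact ⟨hod_grA hA _ fun i hi => hod_app hf f1 (g1.app_mem' hi),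
    isFunc_gr fun i hi => f1.app_mem' (g1.app_mem' hi)⟩

/-- The cardinality of `a` is a strong limit, and cofinalities up to it are smaller. -/
structure SL (a : ZFSet.{u}) : Prop where
  sl : ∀ k < card a, 2 ^ k < card a
  unc : ℵ₀ < card a
  cof : ∀ n Y : ZFSet.{u}, Unc n → Y ⊆ n → (∀ x ∈ n, ∃ y ∈ Y, x ∈ y) → card Y ≤ card a →
    ∃ c, Club n c ∧ card c < card a

/-- The small approximations of `τ` are in HOD. -/
def Apx (a Z τ : ZFSet.{u}) : Prop :=
  ∀ W, HOD Set.univ W → W ⊆ Z → ¬ card a ≤ card W → HOD Set.univ (τ ∩ W)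

/-- `u` is a countable set of functions `A → X` in HOD whose ranges cover `X`. -/
def Cov (A X u : ZFSet.{u}) : Prop :=
  card u ≤ card om ∧ (∀ g, g ∈ u → HOD Set.univ g ∧ IsFunc A X g) ∧
    ∀ x, x ∈ X → ∃ g, g ∈ u ∧ ∃ i, pair i x ∈ g

/-- `x ∈ u[b]`. -/
def InP (u b x : ZFSet.{u}) : Prop := ∃ g, g ∈ u ∧ ∃ i, i ∈ b ∧ pair i x ∈ g

/-- `b` is closed under the functions `a → a` in `u[b]`. -/
def Clo (a u b : ZFSet.{u}) : Prop :=
  ∀ h, InP u b h → IsFunc a a h → ∀ i, i ∈ b → ∀ j, pair i j ∈ h → j ∈ b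

/-- The pull-back of `y` to `b`. -/
noncomputable def pull (u b y : ZFSet.{u}) : ZFSet.{u} :=
  img (fun x => x ∩ vC Set.univ b) (y.sep fun x => InP u b x)

/-- `τ` is computed at `b` from the pull-backs. -/
def InT (a u v τ b : ZFSet.{u}) : Prop :=
  Clo a u b ∧ ∀ x y, InP u b x → InP v b y → (pair x y ∈ τ ↔ pull u b y ∈ x)

section
variable (p q r s t : (ℕ → ZFSet.{u}) → ZFSet.{u}) [Tm Set.univ On p] [Tm Set.univ On q]
  [Tm Set.univ On r] [Tm Set.univ On s] [Tm Set.univ On t]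

instance Df.apx : Df Set.univ On (fun v => Apx (r v) (s v) (t v)) := by
  unfold Apx; infer_instance

instance Df.cov : Df Set.univ On (fun v => Cov (r v) (s v) (t v)) := by
  unfold Cov; infer_instance

instance Df.inP : Df Set.univ On (fun v => InP (r v) (s v) (t v)) := by
  unfold InP; infer_instance

instance Df.clo : Df Set.univ On (fun v => Clo (r v) (s v) (t v)) := by
  unfold Clo; infer_instance

instance Tm.pull : Tm Set.univ On (fun v => pull (r v) (s v) (t v)) := by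
  unfold H3E.pull; infer_instance

instance Df.inT : Df Set.univ On (fun v => InT (p v) (q v) (r v) (s v) (t v)) := by
  unfold InT; infer_instance

end

/-- `L` is a point at which the enumeration `B` reflects. -/
structure Good (t : ZFSet.{u}) (B : ZFSet.{u} → ZFSet.{u}) (L : ZFSet.{u}) : Prop where
  ord : L.IsOrdinal
  sub : L ⊆ t
  lim : ∀ b ∈ L, ∃ c ∈ L, b ∈ c
  hod : ∀ x ∈ L, HOD Set.univ (B x)
  tr : ∀ A ∈ Lev L, ∃ x ∈ L, A = B x ∩ vC Set.univ L
  s0 : ∀ x ∈ L, ∀ y ∈ L, B x ∩ vC Set.univ L = B y ∩ vC Set.univ L → B x = B y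
  s1 : ∀ x ∈ L, ∀ i ∈ L, (∃ z ∈ t, pair i z ∈ B x) → ∃ z ∈ L, pair i z ∈ B x
  s2 : ∀ w ∈ L, ∀ x ∈ L, ∀ i ∈ L, (∀ z ∈ vC Set.univ L, z ∈ B x ↔ pair i z ∈ B w) →
    ∀ z, z ∈ B x ↔ pair i z ∈ B w

/-- The extender at `L`. -/
noncomputable def Ex (B : ZFSet.{u} → ZFSet.{u}) (L : ZFSet.{u}) : ZFSet.{u} :=
  (prod (Lev L) (Lev (insert L L))).sep fun p =>
    ∃ x ∈ L, fst p = B x ∩ vC Set.univ L ∧ snd p ∈ B x

theorem Ex_sub {B : ZFSet.{u} → ZFSet.{u}} {L : ZFSet.{u}} :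
    Ex B L ⊆ prod (Lev L) (Lev (insert L L)) := sep_subset

theorem mem_Ex {B : ZFSet.{u} → ZFSet.{u}} {L : ZFSet.{u}} : pair x y ∈ Ex B L ↔
    x ∈ Lev L ∧ y ∈ Lev (insert L L) ∧ ∃ w ∈ L, x = B w ∩ vC Set.univ L ∧ y ∈ B w := by
  simp only [Ex, mem_sep, pair_mem_prod, fst_pair, snd_pair, and_assoc]

/-- The extender at `a` is computed from pull-backs at cofinally many points. -/
def Real (B : ZFSet.{u} → ZFSet.{u}) (a : ZFSet.{u}) : Prop :=
  ∀ u v Q : ZFSet.{u}, Cov a (Lev a) u → Q ⊆ Lev (insert a a) → (∃ y, y ∈ Q) → Cov a Q v →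
    ∀ i ∈ a, ∃ b ∈ a, i ∈ b ∧ InT a u v (Ex B a) b

end Pool.Agent.MP_ecfd11_lc.H3E
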