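import Pool.Agent.MP_ecfd11_lc.H3E.Base

/-!
Cofinalities and covers.
-/

set_option synthInstance.maxSize 4000

namespace Pool.Agent.MP_ecfd11_lc.H3E

open Pool.Agent.MP_ecfd11_lc.H20 Pool.Agent.MP_ecfd11_lc.H13X Pool.Agent.MP_ecfd11_lc.H3U

universe u

open ZFSet Cardinal Function Filter

variable {a A X u w : ZFSet.{u}}

theorem sl_of (h1 : (card a).IsStrongLimit) (h2 : ¬ Regular Set.univ (card a).ord.toZFSet)
    (h3 : Unc a) : SL a := by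
  have hu : ℵ₀ < card a := by
    refine not_le.1 fun h => ?_
    obtain ⟨c, c1, c2⟩ := h3.2 a (fun _ h => h) (card_om ▸ h)
    exact mem_irrefl c (c2 c c1)
  refine ⟨fun k hk => h1.isStrongPrelimit hk, hu, fun n Y hn y1 y2 y3 => ?_⟩
  suffices h : ∃ Z : ZFSet.{u}, Z ⊆ n ∧ (∀ x ∈ n, ∃ y ∈ Z, x ∈ y) ∧ card Z < card a by
    obtain ⟨Z, z1, z2, z3⟩ := h
    exact ⟨_, hn.club_lim z1 z2, (card_lim_le hn.1 z1 z2).trans_lt z3⟩
  have hK : (card a).ord.toZFSet.IsOrdinal := isOrdinal_toZFSet _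
  obtain ⟨G, hG⟩ := exists_surj_of_card_le (a := (card a).ord.toZFSet) (b := Y)
    (by rwa [card_ord'])
  have h4 : ∃ e ∈ (card a).ord.toZFSet, ∃ f, IsFunc e (card a).ord.toZFSet f ∧
      ∀ b ∈ (card a).ord.toZFSet, ∃ x y, pair x y ∈ f ∧ y ∉ b := by
    by_contra h
    refine h2 ⟨hK, (mem_ord_iff (isOrdinal_toZFSet _)).2 (card_om ▸ hu), fun e he f _ hf => ?_⟩
    by_contra h'
    refine h ⟨e, he, f, hf, fun b hb => ?_⟩
    by_contra h''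
    exact h' ⟨b, hb, fun x y hxy => by_contra fun hy => h'' ⟨x, y, hxy, hy⟩⟩
  obtain ⟨e, he, f, hf, h5⟩ := h4
  by_cases h6 : ∃ x ∈ e, ∀ z ∈ n, ∃ y ∈ img G (insert (app f x) (app f x)) ∩ Y, z ∈ y
  · obtain ⟨x, hx, h6⟩ := h6
    have h7 := hf.app_mem' hx
    refine ⟨_, fun z hz => y1 (mem_inter.1 hz).2, h6, lt_of_le_of_lt
      ((card_mono fun z hz => (mem_inter.1 hz).1).trans ((card_img_le _ _).trans card_insert_le))
      (add_lt_of_lt hu.le ((mem_ord_iff (hK.mem h7)).1 h7) (one_lt_aleph0.trans hu))⟩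
  · have h7 : ∀ x ∈ e, ∃ z ∈ n, ∀ y ∈ img G (insert (app f x) (app f x)) ∩ Y, z ∉ y :=
      fun x hx => by_contra fun h => h6 ⟨x, hx, fun z hz => by_contra fun h' =>
        h ⟨z, hz, fun y hy hzy => h' ⟨y, hy, hzy⟩⟩⟩
    choose! β b1 b2 using h7
    refine ⟨img β e, fun z hz => ?_, fun z hz => ?_,
      (card_img_le _ _).trans_lt ((mem_ord_iff (hK.mem he)).1 he)⟩
    · obtain ⟨x, hx, rfl⟩ := mem_img.1 hz
      exact b1 x hx
    · obtain ⟨y, hy, hzy⟩ := y2 z hz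
      obtain ⟨j, hj, rfl⟩ := hG y hy
      obtain ⟨x, r, h8, h9⟩ := h5 j hj
      obtain ⟨hx, hr⟩ := pair_mem_prod.1 (hf.1 h8)
      have h10 : j ∈ insert (app f x) (app f x) := by
        rw [hf.app_eq h8, mem_insert_iff]
        exact (hK.mem hj).eq_or_mem_of_subset (hK.mem hr)
          (((hK.mem hr).notMem_iff_subset (hK.mem hj)).1 h9)
      have h11 := b2 x hx (G j) (mem_inter.2 ⟨mem_img.2 ⟨j, h10, rfl⟩, hy⟩)
      exact ⟨β x, mem_img.2 ⟨x, hx, rfl⟩,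
        ((hn.1.mem (b1 x hx)).notMem_iff_subset (hn.1.mem (y1 hy))).1 h11 hzy⟩

theorem cf_cases (hs : SL a) (hA : HOD Set.univ A) (h : Succ A X) (hX : card X ≤ card a) :
    (∃ w, Cov A X w) ∨ ∃ n c f : ZFSet.{u}, Unc n ∧ Club n c ∧ card c < card a ∧
      HOD Set.univ f ∧ (∀ r ∈ n, app f r ∈ X) ∧ (∀ x ∈ X, ∃ r ∈ n, app f r = x) ∧
      ∀ r ∈ n, ∃ G, HOD Set.univ G ∧ IsFunc A X G ∧ ∀ i ∈ r, ∃ z ∈ A, app G z = app f i := by
  obtain ⟨n, f, hn, hf, f1, f2, f3⟩ := h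
  have hG : ∀ r, ∃ G, r ∈ n → HOD Set.univ G ∧ IsFunc A X G ∧
      ∀ i ∈ insert r r, ∃ z ∈ A, app G z = app f i := by
    intro r
    by_cases hr : r ∈ n
    · obtain ⟨g, g0, g1, g2⟩ := f3 r hr
      refine ⟨_, fun _ => ⟨(hod_comp hA g0 g1 hf f1).1, (hod_comp hA g0 g1 hf f1).2,
        fun i hi => ?_⟩⟩
      obtain ⟨z, hz⟩ := g2 i hi
      have hz' := (pair_mem_prod.1 (g1.1 hz)).1
      exact ⟨z, hz', by rw [app_gr hz', g1.app_eq hz]⟩
    · exact ⟨∅, fun h => absurd h hr⟩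
  choose G hG using hG
  have hR : ∀ x, ∃ r, x ∈ X → r ∈ n ∧ app f r = x := by
    intro x
    by_cases hx : x ∈ X
    · obtain ⟨r, hr⟩ := f2 x hx
      exact ⟨r, fun _ => ⟨(pair_mem_prod.1 (f1.1 hr)).1, f1.app_eq hr⟩⟩
    · exact ⟨∅, fun h => absurd h hx⟩
  choose R hR using hR
  have key : ∀ y, y ⊆ n → card y ≤ card om → (∀ x ∈ X, ∃ z ∈ y, z ∉ R x) → ∃ w, Cov A X w := by
    intro y y1 y2 y3
    refine ⟨img G y, (card_img_le _ _).trans y2, fun g hg => ?_, fun x hx => ?_⟩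
    · obtain ⟨r, hr, rfl⟩ := mem_img.1 hg
      exact ⟨(hG r (y1 hr)).1, (hG r (y1 hr)).2.1⟩
    · obtain ⟨z, hz, h1⟩ := y3 x hx
      obtain ⟨-, g1, g2⟩ := hG z (y1 hz)
      have h3 : R x ∈ insert z z := by
        rcases (hn.mem (hR x hx).1).mem_trichotomous (hn.mem (y1 hz)) with h2 | h2 | h2
        · exact mem_insert_of_mem _ h2
        · exact h2 ▸ mem_insert _ _
        · exact absurd h2 h1
      obtain ⟨i, hi, e⟩ := g2 _ h3
      have h4 := g1.app_mem hi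
      rw [e, (hR x hx).2] at h4
      exact ⟨G z, mem_img.2 ⟨z, hz, rfl⟩, i, h4⟩
  by_cases hU : Unc n
  · by_cases hc : ∀ x ∈ n, ∃ y ∈ img R X, x ∈ y
    · obtain ⟨c, c1, c2⟩ := hs.cof n (img R X) hU (fun y hy => by
        obtain ⟨x, hx, rfl⟩ := mem_img.1 hy
        exact (hR x hx).1) hc ((card_img_le _ _).trans hX)
      exact Or.inr ⟨n, c, f, hU, c1, c2, hf, fun r hr => f1.app_mem' hr,
        fun x hx => ⟨R x, (hR x hx).1, (hR x hx).2⟩, fun r hr => ⟨G r, (hG r hr).1,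
          (hG r hr).2.1, fun i hi => (hG r hr).2.2 i (mem_insert_of_mem _ hi)⟩⟩
    · refine Or.inl (by_contra fun h1 => hc fun z hz => by_contra fun h2 => h1 ?_)
      refine key {z} (fun y hy => mem_singleton.1 hy ▸ hz) ?_ fun x hx =>
        ⟨z, mem_singleton.2 rfl, fun h3 => h2 ⟨_, mem_img.2 ⟨x, hx, rfl⟩, h3⟩⟩
      rw [card_singleton, card_om]
      exact one_le_aleph0
  · refine Or.inl (by_contra fun h1 => hU ⟨hn, fun y y1 y2 => by_contra fun h2 => h1 ?_⟩)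
    exact key y y1 y2 fun x hx => by_contra fun h3 =>
      h2 ⟨R x, (hR x hx).1, fun z hz => by_contra fun h4 => h3 ⟨z, hz, h4⟩⟩

theorem Cov.comp (ha : HOD Set.univ a) (hu : Cov a A u) (hw : Cov A X w) : ∃ v, Cov a X v := by
  refine ⟨img (fun p => gr (fun x => app (snd p) (app (fst p) x)) a) (prod u w), ?_, ?_, ?_⟩
  · refine (card_img_le _ _).trans ((card_prod_le _ _).trans ((mul_le_mul' hu.1 hw.1).trans ?_))
    rw [card_om, aleph0_mul_aleph0]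
  · intro g hg
    obtain ⟨p, hp, rfl⟩ := mem_img.1 hg
    obtain ⟨x, hx, y, hy, rfl⟩ := mem_prod.1 hp
    simp only [fst_pair, snd_pair]
    exact hod_comp ha (hu.2.1 x hx).1 (hu.2.1 x hx).2 (hw.2.1 y hy).1 (hw.2.1 y hy).2
  · intro x hx
    obtain ⟨f, hf, i, hi⟩ := hw.2.2 x hx
    have f1 := (hw.2.1 f hf).2
    obtain ⟨g, hg, j, hj⟩ := hu.2.2 i (pair_mem_prod.1 (f1.1 hi)).1
    have g1 := (hu.2.1 g hg).2
    refine ⟨_, mem_img.2 ⟨pair g f, pair_mem_prod.2 ⟨hg, hf⟩, rfl⟩, j, ?_⟩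
    simp only [fst_pair, snd_pair]
    exact pair_mem_gr.2 ⟨(pair_mem_prod.1 (g1.1 hj)).1, by rw [g1.app_eq hj, f1.app_eq hi]⟩

theorem cov_ran {G : ZFSet.{u}} (hA : HOD Set.univ A) (hG : HOD Set.univ G) (h : IsFunc A X G) :
    HOD Set.univ (img (app G) A) ∧ Cov A (img (app G) A) {G} := by
  have := hod_tm hG
  refine ⟨hod_img hA.self (app G) fun i hi => hod_app hG h hi, ?_, ?_, ?_⟩
  · rw [card_singleton, card_om]
    exact one_le_aleph0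
  · intro g hg
    rw [mem_singleton.1 hg]
    refine ⟨hG, fun z hz => ?_, h.2⟩
    obtain ⟨x, hx, y, -, rfl⟩ := mem_prod.1 (h.1 hz)
    exact pair_mem_prod.2 ⟨hx, mem_img.2 ⟨x, hx, h.app_eq hz⟩⟩
  · intro x hx
    obtain ⟨i, hi, rfl⟩ := mem_img.1 hx
    exact ⟨G, mem_singleton.2 rfl, i, h.app_mem hi⟩

end Pool.Agent.MP_ecfd11_lc.H3E
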