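import Pool.Agent.MP_ecfd11_lc.H3E.Base

/-!
Antichains of ordinal-valued functions are small.
-/

set_option synthInstance.maxSize 4000

namespace Pool.Agent.MP_ecfd11_lc.H3E

open Pool.Agent.MP_ecfd11_lc.H20 Pool.Agent.MP_ecfd11_lc.H13X Pool.Agent.MP_ecfd11_lc.H3U

universe u

open ZFSet Cardinal Function Filter

theorem er_pure {X I : Type u} (g : X → I → Ordinal.{u})
    (h : ∀ x y, x ≠ y → ∃ i, g y i < g x i) : #X ≤ 2 ^ max ℵ₀ #I := by
  classical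
  rcases isEmpty_or_nonempty X with hX | hX
  · simp
  let C : (a : Set I × Set I) → (a.2 → X) → X → Prop := fun a v x =>
    ∀ j : a.2, g x j ≤ g (v j) j ∧ ((j : I) ∉ a.1 → g x j < g (v j) j)
  let ev : WType (fun a : Set I × Set I => (a.2 : Type u)) → X :=
    WType.elim X fun p => Classical.epsilon (C p.1 p.2)
  have hev : Surjective ev := fun x => by
    have hm : ∀ j : {j | ∃ t, g x j ≤ g (ev t) j}, ∃ t, g x j ≤ g (ev t) j ∧
        ∀ s, g x j ≤ g (ev s) j → g (ev t) j ≤ g (ev s) j := fun j => by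
      obtain ⟨t, ht⟩ := j.2
      obtain ⟨_, ⟨s, hs, rfl⟩, h2⟩ := (wellFounded_lt (α := Ordinal.{u})).has_min
        {o | ∃ s, g x j ≤ g (ev s) j ∧ o = g (ev s) j} ⟨_, t, ht, rfl⟩
      exact ⟨s, hs, fun s' hs' => not_lt.1 (h2 _ ⟨s', hs', rfl⟩)⟩
    choose t h1 h2 using hm
    let a : Set I × Set I :=
      ({j | ∃ s, g x j = g (ev s) j}, {j | ∃ t, g x j ≤ g (ev t) j})
    have hx : C a (fun j => ev (t j)) x := fun j =>
      ⟨h1 j, fun hj => lt_of_le_of_ne (h1 j) fun e => hj ⟨_, e⟩⟩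
    have hy : C a (fun j => ev (t j)) (ev (WType.mk a t)) := Classical.epsilon_spec ⟨x, hx⟩
    refine ⟨WType.mk a t, by_contra fun hne => ?_⟩
    obtain ⟨i, hi⟩ := h _ _ hne
    have h3 : i ∈ a.2 := ⟨_, hi.le⟩
    by_cases h4 : i ∈ a.1
    · obtain ⟨s, hs⟩ := h4
      exact absurd ((hy ⟨i, h3⟩).1.trans ((h2 ⟨i, h3⟩ s hs.le).trans hs.ge)) (not_le.2 hi)
    · exact absurd (h2 ⟨i, h3⟩ _ hi.le) (not_le.2 ((hy ⟨i, h3⟩).2 h4))
  have hl : ℵ₀ ≤ max ℵ₀ #I := le_max_left _ _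
  have h2 : ℵ₀ ≤ 2 ^ max ℵ₀ #I := hl.trans (cantor _).le
  have h3 : #(Set I) ≤ 2 ^ max ℵ₀ #I := by
    rw [mk_set]; exact power_le_power_left two_ne_zero (le_max_right _ _)
  refine (mk_le_of_surjective hev).trans (WType.cardinalMk_le_of_le ?_)
  refine (sum_le_sum _ (fun _ => 2 ^ max ℵ₀ #I) fun a => ?_).trans ?_
  · refine (power_le_power_left (lt_of_lt_of_le aleph0_pos h2).ne'
      ((mk_set_le a.2).trans (le_max_right ℵ₀ _))).trans ?_
    rw [← power_mul, mul_eq_self hl]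
  · rw [sum_const', mk_prod, lift_id]
    calc #(Set I) * #(Set I) * 2 ^ max ℵ₀ #I
        ≤ 2 ^ max ℵ₀ #I * 2 ^ max ℵ₀ #I * 2 ^ max ℵ₀ #I := by gcongr
      _ = _ := by rw [mul_eq_self h2, mul_eq_self h2]

theorem er (F c : ZFSet.{u}) (f : ZFSet.{u} → ZFSet.{u} → ZFSet.{u})
    (ho : ∀ τ ∈ F, ∀ i ∈ c, (f τ i).IsOrdinal)
    (h : ∀ τ ∈ F, ∀ σ ∈ F, τ ≠ σ → ∃ i ∈ c, f σ i ∈ f τ i) :
    card F ≤ 2 ^ max ℵ₀ (card c) := by
  have _ := ho
  refine er_pure (X := Shrink.{u} F) (I := Shrink.{u} c)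
    (fun x i => ZFSet.rank (f ((equivShrink F).symm x).1 ((equivShrink c).symm i).1)) fun x y hxy => ?_
  obtain ⟨i, hi, h1⟩ := h _ ((equivShrink F).symm x).2 _ ((equivShrink F).symm y).2
    fun e => hxy ((equivShrink F).symm.injective (Subtype.ext e))
  refine ⟨equivShrink c ⟨i, hi⟩, ?_⟩
  simpa only [Equiv.symm_apply_apply] using ZFSet.rank_lt_of_mem h1

end Pool.Agent.MP_ecfd11_lc.H3E
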