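import Pool.Agent.MP_ecfd11_lc.H3E.Min

/-!
Sets computed from pull-backs at cofinally many points lie in HOD.
-/

set_option synthInstance.maxSize 4000

namespace Pool.Agent.MP_ecfd11_lc.H3E

open Pool.Agent.MP_ecfd11_lc.H20 Pool.Agent.MP_ecfd11_lc.H13X Pool.Agent.MP_ecfd11_lc.H3U

universe u

open ZFSet Cardinal Function Filter

variable {a X Q u v w τ : ZFSet.{u}}

theorem canon_fun (ha : Unc a) {g g' : ZFSet.{u}} (hg : HOD Set.univ g) (hg' : HOD Set.univ g') :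
    ∃ h ∈ Lev a, IsFunc a a h ∧
      ∀ i ∈ a, (∃ j ∈ a, app g' j = app g i) → app g' (app h i) = app g i := by
  have := hod_tm hg
  have := hod_tm hg'
  have : Tm Set.univ On (fun _ => a) := Tm.ofOrd ha.1
  have hT : Tm Set.univ On (fun v => leastBy a (fun x => x) fun j => app g' j = app g (v 0)) :=
    Tm.leastBy a (fun x => x) fun i j => app g' j = app g i
  have h1 : ∀ i, (leastBy a (fun x => x) fun j => app g' j = app g i) ∈ a := fun i => by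
    by_cases hi : ∃ j ∈ a, app g' j = app g i
    · exact (leastBy_id ha.1 hi).1
    · have e : (leastBy a (fun x => x) fun j => app g' j = app g i) = ∅ := by
        refine (eq_empty _).2 fun z hz => ?_
        obtain ⟨y, hy, -⟩ := mem_sUnion.1 hz
        exact hi ⟨y, (mem_sep.1 hy).1, (mem_sep.1 hy).2.1⟩
      rw [e]
      exact ha.empty_mem
  have h2 : IsFunc a a (gr (fun i => leastBy a (fun x => x) fun j => app g' j = app g i) a) :=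
    isFunc_gr fun i _ => h1 i
  refine ⟨_, (mem_Lev ha.1).2 ⟨fun p hp => ?_, hod_grA (hod_ord ha.1) _ (hF := hT)
    fun i _ => hod_ord (ha.1.mem (h1 i))⟩, h2, fun i hi h => ?_⟩
  · obtain ⟨x, hx, y, hy, rfl⟩ := mem_prod.1 (h2.1 hp)
    exact (pair_vC ha.1 fun _ => ha.succ).2 ⟨mem_vC ha.1 hx, mem_vC ha.1 hy⟩
  · rw [app_gr hi]
    exact (leastBy_id ha.1 h).2

theorem canon_bdd (ha : Unc a) (hv : card v ≤ card om) (F : ZFSet.{u} → ZFSet.{u})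
    (h : ∀ g ∈ v, F g ∈ a) : ∃ e ∈ a, ∀ g ∈ v, F g ∈ e := by
  obtain ⟨e, h1, h2⟩ := ha.2 (img F v) (fun z hz => by
    obtain ⟨g, hg, rfl⟩ := mem_img.1 hz
    exact h g hg) ((card_img_le _ _).trans hv)
  exact ⟨e, h1, fun g hg => h2 _ (mem_img.2 ⟨g, hg, rfl⟩)⟩

theorem canon (ha : Unc a) (hu : Cov a (Lev a) u) (hv : Cov a X v) (hw : Cov a X w) :
    ∃ e ∈ a, ∀ b ∈ a, e ∈ b → Clo a u b → ∀ x, InP v b x → InP w b x := by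
  have h1 : ∀ g ∈ v, ∀ g' ∈ w, ∃ k ∈ a, ∃ h, (∃ G, G ∈ u ∧ pair k h ∈ G) ∧ IsFunc a a h ∧
      ∀ i ∈ a, (∃ j ∈ a, app g' j = app g i) → app g' (app h i) = app g i := fun g hg g' hg' => by
    obtain ⟨h, h1, h2⟩ := canon_fun ha (hv.2.1 g hg).1 (hw.2.1 g' hg').1
    obtain ⟨G, hG, k, hk⟩ := hu.2.2 h h1
    exact ⟨k, (pair_mem_prod.1 ((hu.2.1 G hG).2.1 hk)).1, h, ⟨G, hG, hk⟩, h2⟩
  choose! k k1 k2 using h1
  choose! E e1 e2 using fun g (hg : g ∈ v) => canon_bdd ha hw.1 (k g) (k1 g hg)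
  obtain ⟨e, he, e3⟩ := canon_bdd ha hv.1 E e1
  refine ⟨e, he, fun b hb heb hc x ⟨g, hg, i, hi, hx⟩ => ?_⟩
  have hb' := ha.1.mem hb
  have g1 := (hv.2.1 g hg).2
  obtain ⟨hia, hxX⟩ := pair_mem_prod.1 (g1.1 hx)
  obtain ⟨g', hg', j, hj⟩ := hw.2.2 x hxX
  have g2 := (hw.2.1 g' hg').2
  obtain ⟨h, ⟨G, hG, h2⟩, h3, h4⟩ := k2 g hg g' hg'
  have h5 : k g g' ∈ b := hb'.mem_trans (e2 g hg g' hg') (hb'.mem_trans (e3 g hg) heb)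
  have h6 := hc h ⟨G, hG, _, h5, h2⟩ h3 i hi _ (h3.app_mem hia)
  have h7 := h4 i hia ⟨j, (pair_mem_prod.1 (g2.1 hj)).1, (g2.app_eq hj).trans (g1.app_eq hx).symm⟩
  refine ⟨g', hg', _, h6, ?_⟩
  have h8 := g2.app_mem (h3.app_mem' hia)
  rwa [h7, g1.app_eq hx] at h8

theorem lemA_bd {e e' : ZFSet.{u}} (ha : Unc a) (h : e ∈ a) (h' : e' ∈ a) :
    ∃ g ∈ a, ∀ b ∈ a, g ∈ b → e ∈ b ∧ e' ∈ b := by
  obtain ⟨g, h1, h2, h3⟩ := exists_bound2 ha.1 h h'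
  exact ⟨g, h1, fun b hb hg => ⟨(ha.1.mem h).mem_of_subset_of_mem (ha.1.mem hb) h2 hg,
    (ha.1.mem h').mem_of_subset_of_mem (ha.1.mem hb) h3 hg⟩⟩

theorem lemA_one {u' v' : ZFSet.{u}} (ha : Unc a) (hu : Cov a (Lev a) u) (hv : Cov a Q v)
    (hu' : Cov a (Lev a) u') (hv' : Cov a Q v') :
    ∃ e ∈ a, ∀ b ∈ a, e ∈ b → ∀ σ, InT a u' v' σ b → InT a u v σ b := by
  obtain ⟨e1, a1, b1⟩ := canon ha hu' hu hu'
  obtain ⟨e2, a2, b2⟩ := canon ha hu' hu' hu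
  obtain ⟨e3, a3, b3⟩ := canon ha hu' hv hv'
  obtain ⟨g, g1, g2⟩ := lemA_bd ha a1 a2
  obtain ⟨e, c1, c2⟩ := lemA_bd ha g1 a3
  refine ⟨e, c1, fun b hb he σ h => ?_⟩
  obtain ⟨d1, d2⟩ := c2 b hb he
  obtain ⟨d3, d4⟩ := g2 b hb d1
  have k1 := b1 b hb d3 h.1
  have k2 := b2 b hb d4 h.1
  refine ⟨fun f hf => h.1 f (k1 f hf), fun x y hx hy => ?_⟩
  have e : (fun x => InP u b x) = fun x => InP u' b x :=
    funext fun x => propext ⟨k1 x, k2 x⟩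
  rw [pull, e]
  exact h.2 x y (k1 x hx) (b3 b hb d2 h.1 y hy)

theorem lemA_ind {u' v' : ZFSet.{u}} (ha : Unc a) (hu : Cov a (Lev a) u) (hv : Cov a Q v)
    (hu' : Cov a (Lev a) u') (hv' : Cov a Q v') :
    ∃ e ∈ a, ∀ b ∈ a, e ∈ b → ∀ σ, InT a u' v' σ b ↔ InT a u v σ b := by
  obtain ⟨e1, a1, b1⟩ := lemA_one ha hu hv hu' hv'
  obtain ⟨e2, a2, b2⟩ := lemA_one ha hu' hv' hu hv
  obtain ⟨e, c1, c2⟩ := lemA_bd ha a1 a2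
  exact ⟨e, c1, fun b hb he σ => ⟨b1 b hb (c2 b hb he).1 σ, b2 b hb (c2 b hb he).2 σ⟩⟩

theorem lemA_inP {x : ZFSet.{u}} (hv : Cov a X v) (hx : x ∈ X) :
    ∃ i ∈ a, ∀ b, i ∈ b → InP v b x := by
  obtain ⟨g, g1, i, g2⟩ := hv.2.2 x hx
  exact ⟨i, (pair_mem_prod.1 ((hv.2.1 g g1).2.1 g2)).1, fun b hb => ⟨g, g1, i, hb, g2⟩⟩

theorem lemA_lt {p q : ZFSet.{u} → Prop} (ha : a.IsOrdinal) (hp : ∃ x ∈ a, p x)
    (hq : ∃ x ∈ a, q x) : (∃ b, b ∈ a ∧ p b ∧ ∀ c, c ∈ a → q c → b ∈ c) ↔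
      leastBy a (fun x => x) p ∈ leastBy a (fun x => x) q := by
  obtain ⟨p1, p2, p3⟩ := H46.leastBy_min ha hp
  obtain ⟨q1, q2, q3⟩ := H46.leastBy_min ha hq
  constructor
  · rintro ⟨b, h1, h2, h3⟩
    rcases (ha.mem p1).mem_trichotomous (ha.mem h1) with h | h | h
    exacts [(ha.mem q1).mem_trans h (h3 _ q1 q2), h ▸ h3 _ q1 q2, absurd h2 (p3 b h)]
  · refine fun h0 => ⟨_, p1, p2, fun c h1 h2 => ?_⟩
    rcases (ha.mem q1).mem_trichotomous (ha.mem h1) with h | h | h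
    exacts [(ha.mem h1).mem_trans h0 h, h ▸ h0, absurd h2 (q3 c h)]

theorem lemA (hs : SL a) (ha : Unc a) (hQ : HOD Set.univ Q) (hu : Cov a (Lev a) u)
    (hv : Cov a Q v) (h1 : τ ⊆ prod (Lev a) Q) (h2 : Apx a (prod (Lev a) Q) τ)
    (h3 : ∀ i ∈ a, ∃ b ∈ a, i ∈ b ∧ InT a u v τ b) : HOD Set.univ τ := by
  obtain ⟨c, c1, c2⟩ := hs.cof a a ha subset_rfl (fun x hx => ha.succ hx) le_rfl
  have hZ := hod_prod (hod_Lev ha.1) hQ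
  have : Tm Set.univ On (fun _ => a) := Tm.ofOrd ha.1
  have := hod_tm (hod_Lev ha.1)
  have := hod_tm hQ
  obtain ⟨F, hF⟩ : ∃ F : ZFSet.{u}, F = (powerset (prod (Lev a) Q)).sep fun σ =>
      Apx a (prod (Lev a) Q) σ ∧ ∃ u', Cov a (Lev a) u' ∧ ∃ v', Cov a Q v' ∧
        ∀ i, i ∈ a → ∃ b, b ∈ a ∧ i ∈ b ∧ InT a u' v' σ b := ⟨_, rfl⟩
  have f0 : OD Set.univ F := od_iff.2 (hF ▸ inferInstance)
  have f1 : ∀ σ ∈ F, σ ⊆ prod (Lev a) Q ∧ Apx a (prod (Lev a) Q) σ := fun σ h => by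
    rw [hF] at h
    exact ⟨mem_powerset.1 (mem_sep.1 h).1, (mem_sep.1 h).2.1⟩
  have f2 : ∀ σ ∈ F, ∀ i ∈ a, ∃ b ∈ a, i ∈ b ∧ InT a u v σ b := fun σ h i hi => by
    rw [hF] at h
    obtain ⟨-, -, u', hu', v', hv', h⟩ := mem_sep.1 h
    obtain ⟨e, e1, e2⟩ := lemA_ind ha hu hv hu' hv'
    obtain ⟨g, g1, g2⟩ := lemA_bd ha hi e1
    obtain ⟨b, b1, b2, b3⟩ := h g g1
    exact ⟨b, b1, (g2 b b1 b2).1, (e2 b b1 (g2 b b1 b2).2 σ).1 b3⟩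
  obtain ⟨R, hR⟩ : ∃ R : ZFSet.{u} → ZFSet.{u} → Prop, R = fun ρ σ =>
      ∃ u', Cov a (Lev a) u' ∧ ∃ v', Cov a Q v' ∧ Null a (a.sep fun i => ¬ ∃ b, b ∈ a ∧
        (i ∈ b ∧ InT a u' v' ρ b) ∧ ∀ c, c ∈ a → (i ∈ c ∧ InT a u' v' σ c) → b ∈ c) := ⟨_, rfl⟩
  have : Df Set.univ On (fun v => R (v 0) (v 1)) := by
    rw [hR]
    infer_instance
  refine min_fam hs.sl hs.unc ha c1 c2 hZ f0 f1
    (fun σ i => leastBy a (fun x => x) fun b => i ∈ b ∧ InT a u v σ b)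
    (fun σ h i hi => ha.1.mem (H46.leastBy_min ha.1 (f2 σ h i hi)).1) (fun ρ hρ σ hσ hne => ?_) R
    (fun ρ hρ σ hσ => ?_) τ (hF ▸ mem_sep.2 ⟨mem_powerset.2 h1, h2, u, hu, v, hv, h3⟩)
  · obtain ⟨x, y, hx, hy, h⟩ : ∃ x y, x ∈ Lev a ∧ y ∈ Q ∧ ¬ (pair x y ∈ ρ ↔ pair x y ∈ σ) := by
      by_contra h
      refine hne (ZFSet.ext fun z => ⟨fun hz => ?_, fun hz => ?_⟩)
      · obtain ⟨x, hx, y, hy, rfl⟩ := mem_prod.1 ((f1 ρ hρ).1 hz)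
        exact by_contra fun h' => h ⟨x, y, hx, hy, fun e => h' (e.1 hz)⟩
      · obtain ⟨x, hx, y, hy, rfl⟩ := mem_prod.1 ((f1 σ hσ).1 hz)
        exact by_contra fun h' => h ⟨x, y, hx, hy, fun e => h' (e.2 hz)⟩
    obtain ⟨i, i1, i2⟩ := lemA_inP hu hx
    obtain ⟨j, j1, j2⟩ := lemA_inP hv hy
    filter_upwards [ev_above (S := a) ha i1, ev_above (S := a) ha j1, ev_mem (S := a) ha]
      with k k1 k2 k3 e
    obtain ⟨p1, ⟨p2, p3⟩, -⟩ := H46.leastBy_min ha.1 (f2 ρ hρ k k3.1)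
    obtain ⟨-, ⟨-, q3⟩, -⟩ := H46.leastBy_min ha.1 (f2 σ hσ k k3.1)
    rw [← e] at q3
    have x1 := i2 _ ((ha.1.mem p1).mem_trans k1 p2)
    have y1 := j2 _ ((ha.1.mem p1).mem_trans k2 p2)
    exact h ((p3.2 x y x1 y1).trans (q3.2 x y x1 y1).symm)
  · rw [hR]
    constructor
    · rintro ⟨u', hu', v', hv', h⟩
      obtain ⟨e, e1, e2⟩ := lemA_ind ha hu hv hu' hv'
      filter_upwards [(ev_iff (S := a) ha).2 h, ev_above (S := a) ha e1, ev_mem (S := a) ha]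
        with k k1 k2 k3
      obtain ⟨b, b1, ⟨b2, b3⟩, b4⟩ := k1
      exact (lemA_lt ha.1 (f2 ρ hρ k k3.1) (f2 σ hσ k k3.1)).1 ⟨b, b1,
        ⟨b2, (e2 b b1 ((ha.1.mem b1).mem_trans k2 b2) ρ).1 b3⟩, fun c c1 c2 =>
          b4 c c1 ⟨c2.1, (e2 c c1 ((ha.1.mem c1).mem_trans k2 c2.1) σ).2 c2.2⟩⟩
    · refine fun h => ⟨u, hu, v, hv, (ev_iff (S := a) ha).1 ?_⟩
      filter_upwards [h, ev_mem (S := a) ha] with k k1 k3
      exact (lemA_lt ha.1 (f2 ρ hρ k k3.1) (f2 σ hσ k k3.1)).2 k1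

end Pool.Agent.MP_ecfd11_lc.H3E
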