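import Pool.Agent.MP_ecfd11_lc.H3E.AM

/-!
Reflection of the extenders.
-/

set_option synthInstance.maxSize 4000

namespace Pool.Agent.MP_ecfd11_lc.H3E

open Pool.Agent.MP_ecfd11_lc.H20 Pool.Agent.MP_ecfd11_lc.H13X Pool.Agent.MP_ecfd11_lc.H3U

universe u

open ZFSet Cardinal Function Filter

variable {t a b : ZFSet.{u}} {B : ZFSet.{u} → ZFSet.{u}}

theorem fr_const {ι : Type} [Countable ι] (ht : Regular Set.univ t)
    (hw : ∀ e ∈ t, card e ^ ℵ₀ < card t) (p : (ι → ZFSet.{u}) → ZFSet.{u} → Prop)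
    (h : ∃ᶠ a in cf t (unc_of_regular ht), Unc a ∧ ∃ j, (∀ k, j k ∈ a) ∧ p j a) :
    ∃ j, ∃ᶠ a in cf t (unc_of_regular ht), (∀ k, j k ∈ a) ∧ p j a := by
  by_contra h0
  simp only [not_exists, not_frequently] at h0
  have hι : lift.{u} #ι ≤ ℵ₀ := lift_le_aleph0.2 mk_le_aleph0
  have key : ∀ e ∈ t, ∀ᶠ L in cf t (unc_of_regular ht), ∀ q : ι → Shrink.{u} e,
      ¬ ((∀ k, ((equivShrink e).symm (q k)).1 ∈ L) ∧
        p (fun k => ((equivShrink e).symm (q k)).1) L) := fun e he =>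
    ev_type ht (by
      have h1 : #(ι → Shrink.{u} e) = card e ^ lift.{u} #ι := by
        rw [mk_arrow, lift_uzero]
        rfl
      rw [h1]
      by_cases h2 : card e = 0
      · rw [h2]
        exact (zero_power_le _).trans_lt (one_lt_aleph0.trans ht.aleph0_lt)
      · exact (power_le_power_left h2 hι).trans_lt (hw e he)) fun q => h0 _
  obtain ⟨L, ⟨hu, j, j1, j2⟩, hL⟩ := (h.and_eventually (ev_diag ht key)).exists
  obtain ⟨c, c1, c2⟩ := hu.2 (range j)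
    (fun x hx => by obtain ⟨n, rfl⟩ := mem_range.1 hx; exact j1 n)
    (by
      rw [card_om]
      have h1 := lift_card_range_le (f := j)
      rw [lift_uzero] at h1
      exact h1.trans hι)
  have c3 : ∀ k, j k ∈ c := fun k => c2 _ (mem_range.2 ⟨k, rfl⟩)
  exact hL c c1 (fun k => equivShrink c ⟨j k, c3 k⟩) (by simpa using ⟨j1, j2⟩)

theorem fr_lim (ht : Regular Set.univ t) {q : ZFSet.{u} → Prop}
    (h : ∃ᶠ a in cf t (unc_of_regular ht), q a) :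
    ∀ᶠ a in cf t (unc_of_regular ht), ∀ i ∈ a, ∃ b ∈ a, i ∈ b ∧ q b := by
  refine ev_diag ht (p := fun i a => ∃ b ∈ a, i ∈ b ∧ q b) fun i hi => ?_
  obtain ⟨b, b1, b2, b3⟩ := (h.and_eventually ((ev_above (unc_of_regular ht) hi).and
    (ev_mem (unc_of_regular ht)))).exists
  exact (ev_above (unc_of_regular ht) b3.2).mono fun a ha => ⟨b, ha, b2, b1⟩

/-- The sequences `U`, `V` of functions on `a` are coded by the indices `j`. -/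
structure Coded (B : ZFSet.{u} → ZFSet.{u}) (a : ZFSet.{u}) (U V : ℕ → ZFSet.{u})
    (j : ℕ ⊕ (ℕ × ℕ) ⊕ (ℕ × ℕ) → ZFSet.{u}) : Prop where
  u1 : ∀ m, IsFunc a (Lev a) (U m)
  u2 : ∀ x ∈ Lev a, ∃ m i, pair i x ∈ U m
  v1 : ∀ k, IsFunc a (Lev (insert a a)) (V k)
  c1 : ∀ m, ∀ i ∈ a, ∀ x ∈ a, app (U m) i = B x ∩ vC Set.univ a →
    ∀ z, z ∈ B x ↔ pair i z ∈ B (j (.inl m))
  c2 : ∀ k m, ∀ i ∈ a, ∀ i' ∈ a,
    app (U m) i' ∈ app (V k) i ↔ pair i i' ∈ B (j (.inr (.inl (k, m))))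
  c3 : ∀ k m, ∀ i ∈ a, ∀ i' ∈ a,
    pair i' (app (V k) i) ∈ B (j (.inl m)) ↔ pair i i' ∈ B (j (.inr (.inr (k, m))))

theorem exists_coded_rel (h : Good t B a) {S : ZFSet.{u}} (h1 : S ⊆ prod a a)
    (h2 : OD Set.univ S) : ∃ x ∈ a, ∀ i ∈ a, ∀ i' ∈ a, pair i i' ∈ S ↔ pair i i' ∈ B x := by
  have hv : ∀ i ∈ a, ∀ i' ∈ a, pair i i' ∈ vC Set.univ a := fun i hi i' hi' =>
    (pair_vC h.ord h.lim).2 ⟨mem_vC h.ord hi, mem_vC h.ord hi'⟩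
  obtain ⟨x, hx, e⟩ := h.tr S ((mem_Lev h.ord).2 ⟨fun z hz => by
    obtain ⟨i, hi, i', hi', rfl⟩ := mem_prod.1 (h1 hz)
    exact hv i hi i' hi', hod_sub (hod_prod (hod_ord h.ord) (hod_ord h.ord)) h1 h2⟩)
  refine ⟨x, hx, fun i hi i' hi' => ?_⟩
  rw [e, mem_inter]
  exact and_iff_left (hv i hi i' hi')

theorem exists_coded_mem (h : Good t B a) {f g : ZFSet.{u}} (hf : HOD Set.univ f)
    (hg : HOD Set.univ g) :
    ∃ x ∈ a, ∀ i ∈ a, ∀ i' ∈ a, app f i' ∈ app g i ↔ pair i i' ∈ B x := by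
  have := hod_tm hf
  have := hod_tm hg
  have : Tm Set.univ On (fun _ => a) := Tm.ofOrd h.ord
  obtain ⟨x, hx, e⟩ := exists_coded_rel h
    (S := (prod a a).sep fun p => app f (snd p) ∈ app g (fst p)) sep_subset
    (od_iff.2 inferInstance)
  refine ⟨x, hx, fun i hi i' hi' => ?_⟩
  rw [← e i hi i' hi', mem_sep, pair_mem_prod, fst_pair, snd_pair]
  exact ⟨fun h' => ⟨⟨hi, hi'⟩, h'⟩, fun h' => h'.2⟩

theorem exists_coded_sec (h : Good t B a) {W g : ZFSet.{u}} (hW : HOD Set.univ W)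
    (hg : HOD Set.univ g) :
    ∃ x ∈ a, ∀ i ∈ a, ∀ i' ∈ a, pair i' (app g i) ∈ W ↔ pair i i' ∈ B x := by
  have := hod_tm hW
  have := hod_tm hg
  have : Tm Set.univ On (fun _ => a) := Tm.ofOrd h.ord
  obtain ⟨x, hx, e⟩ := exists_coded_rel h
    (S := (prod a a).sep fun p => pair (snd p) (app g (fst p)) ∈ W) sep_subset
    (od_iff.2 inferInstance)
  refine ⟨x, hx, fun i hi i' hi' => ?_⟩
  rw [← e i hi i' hi', mem_sep, pair_mem_prod, fst_pair, snd_pair]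
  exact ⟨fun h' => ⟨⟨hi, hi'⟩, h'⟩, fun h' => h'.2⟩

theorem exists_coded (h : Good t B a) {U V : ℕ → ZFSet.{u}}
    (u0 : ∀ m, HOD Set.univ (U m)) (u1 : ∀ m, IsFunc a (Lev a) (U m))
    (u2 : ∀ x ∈ Lev a, ∃ m i, pair i x ∈ U m) (v0 : ∀ k, HOD Set.univ (V k))
    (v1 : ∀ k, IsFunc a (Lev (insert a a)) (V k)) :
    ∃ j, (∀ k, j k ∈ a) ∧ Coded B a U V j := by
  choose w w1 w2 using fun m => h.code (u0 m) (u1 m)
  choose r r1 r2 using fun q : ℕ × ℕ => exists_coded_mem h (u0 q.2) (v0 q.1)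
  choose o o1 o2 using fun q : ℕ × ℕ => exists_coded_sec h (h.hod _ (w1 q.2)) (v0 q.1)
  refine ⟨Sum.elim w (Sum.elim r o), ?_, u1, u2, v1, w2, fun k m => r2 (k, m),
    fun k m => o2 (k, m)⟩
  rintro (m | q | q)
  · exact w1 m
  · exact r1 q
  · exact o1 q

theorem reflect_app {A X f x y : ZFSet.{u}} (h : IsFunc A X f) (hp : pair x y ∈ f) :
    x ∈ A ∧ app f x = y := by
  have hx : x ∈ A := (pair_mem_prod.1 (h.1 hp)).1
  exact ⟨hx, app_eq hp fun y' h' => (h.2 x hx).unique h' hp⟩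

theorem reflect_inP {X u x : ZFSet.{u}} {U : ℕ → ZFSet.{u}} (hs : b ⊆ a)
    (u1 : ∀ m, IsFunc a X (U m)) (hu : ∀ g, g ∈ u ↔ ∃ m, U m = g) :
    InP u b x ↔ ∃ m, ∃ i ∈ b, app (U m) i = x := by
  constructor
  · rintro ⟨g, hg, i, hi, hp⟩
    obtain ⟨m, rfl⟩ := (hu g).1 hg
    exact ⟨m, i, hi, (reflect_app (u1 m) hp).2⟩
  · rintro ⟨m, i, hi, rfl⟩
    exact ⟨U m, (hu _).2 ⟨m, rfl⟩, i, hi, (u1 m).app_mem (hs hi)⟩

theorem reflect_key (ha : Good t B a) (hb : Good t B b) (hs : b ⊆ a)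
    {U V U' V' : ℕ → ZFSet.{u}} {j : ℕ ⊕ (ℕ × ℕ) ⊕ (ℕ × ℕ) → ZFSet.{u}} (h1 : Coded B a U V j)
    (h2 : Coded B b U' V' j) (m : ℕ) {i : ZFSet.{u}} (hi : i ∈ b) :
    ∃ x ∈ b, app (U' m) i = B x ∩ vC Set.univ b ∧ app (U m) i = B x ∩ vC Set.univ a ∧
      ∀ z, z ∈ B x ↔ pair i z ∈ B (j (.inl m)) := by
  obtain ⟨x, hx, e⟩ := hb.tr _ ((h2.u1 m).app_mem' hi)
  obtain ⟨y, hy, e'⟩ := ha.tr _ ((h1.u1 m).app_mem' (hs hi))
  have k := h2.c1 m i hi x hx e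
  have k' := h1.c1 m i (hs hi) y hy e'
  have e2 : B y = B x := ZFSet.ext fun z => (k' z).trans (k z).symm
  exact ⟨x, hx, e, e2 ▸ e', k⟩

theorem reflect_pull (ha : Good t B a) (hb : Good t B b) (hba : b ∈ a)
    {U V U' V' : ℕ → ZFSet.{u}} {j : ℕ ⊕ (ℕ × ℕ) ⊕ (ℕ × ℕ) → ZFSet.{u}} (h1 : Coded B a U V j)
    (h2 : Coded B b U' V' j) {u : ZFSet.{u}} (hu : ∀ g, g ∈ u ↔ ∃ m, U m = g) (k : ℕ)
    {i : ZFSet.{u}} (hi : i ∈ b) : pull u b (app (V k) i) = app (V' k) i := by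
  have hs : b ⊆ a := ha.ord.subset_of_mem hba
  have e0 : ∀ m, ∀ n ∈ b, app (U m) n ∩ vC Set.univ b = app (U' m) n := fun m n hn => by
    obtain ⟨x, -, e, e', -⟩ := reflect_key ha hb hs h1 h2 m hn
    rw [e, e']
    refine ZFSet.ext fun z => ?_
    simp only [mem_inter, mem_vC_ord ha.ord, mem_vC_ord hb.ord]
    exact ⟨fun h => ⟨h.1.1, h.2⟩, fun h => ⟨⟨h.1, h.2.trans (rank_lt_of_mem hba)⟩, h.2⟩⟩
  have e1 : ∀ m, ∀ n ∈ b, app (U m) n ∈ app (V k) i ↔ app (U' m) n ∈ app (V' k) i :=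
    fun m n hn => (h1.c2 k m i (hs hi) n (hs hn)).trans (h2.c2 k m i hi n hn).symm
  refine ZFSet.ext fun z => ?_
  rw [pull, mem_img]
  constructor
  · rintro ⟨w, hw, rfl⟩
    obtain ⟨w1, w2⟩ := mem_sep.1 hw
    obtain ⟨m, n, hn, rfl⟩ := (reflect_inP hs h1.u1 hu).1 w2
    rw [e0 m n hn]
    exact (e1 m n hn).1 w1
  · intro hz
    obtain ⟨m, n, hp⟩ := h2.u2 z (((mem_P hb.ord).1 ((h2.v1 k).app_mem' hi)).1 hz)
    obtain ⟨hn, rfl⟩ := reflect_app (h2.u1 m) hp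
    exact ⟨app (U m) n, mem_sep.2 ⟨(e1 m n hn).2 hz,
      (reflect_inP hs h1.u1 hu).2 ⟨m, n, hn, rfl⟩⟩, e0 m n hn⟩

theorem reflect_vC (ha : Good t B a) (hba : b ∈ a) {y : ZFSet.{u}} (hy : y ∈ Lev (insert b b)) :
    y ∈ vC Set.univ a := by
  have h := mem_vonNeumann.1 (mem_sep.1 hy).1
  rw [rank_insert, max_eq_left (Order.le_succ _), Order.succ_eq_add_one] at h
  exact (mem_vC_ord ha.ord).2 (h.trans
    (succ_lt ha.ord ha.lim (succ_lt ha.ord ha.lim (rank_lt_of_mem hba))))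

theorem reflect (ha : Good t B a) (hb : Good t B b) (hba : b ∈ a) {U V U' V' : ℕ → ZFSet.{u}}
    {j : ℕ ⊕ (ℕ × ℕ) ⊕ (ℕ × ℕ) → ZFSet.{u}} (h1 : Coded B a U V j) (h2 : Coded B b U' V' j)
    {u v : ZFSet.{u}} (hu : ∀ g, g ∈ u ↔ ∃ m, U m = g) (hv : ∀ g, g ∈ v ↔ ∃ k, V k = g) :
    InT a u v (Ex B a) b := by
  have hs : b ⊆ a := ha.ord.subset_of_mem hba
  refine ⟨fun h hh hf i hi z hz => ?_, fun x y hx hy => ?_⟩
  · obtain ⟨m, n, hn, rfl⟩ := (reflect_inP hs h1.u1 hu).1 hh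
    obtain ⟨x, hx, -, e, -⟩ := reflect_key ha hb hs h1 h2 m hn
    have z1 : z ∈ a := (pair_mem_prod.1 (hf.1 hz)).2
    obtain ⟨w, hw, w1⟩ := hb.s1 x hx i hi ⟨z, ha.sub z1, (mem_inter.1 (e ▸ hz)).1⟩
    have w2 : pair i w ∈ app (U m) n := e ▸ mem_inter.2 ⟨w1,
      (pair_vC ha.ord ha.lim).2 ⟨mem_vC ha.ord (hs hi), mem_vC ha.ord (hs hw)⟩⟩
    exact (hf.2 i (hs hi)).unique w2 hz ▸ hw
  · obtain ⟨m, n, hn, rfl⟩ := (reflect_inP hs h1.u1 hu).1 hx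
    obtain ⟨k, i, hi, rfl⟩ := (reflect_inP hs h1.v1 hv).1 hy
    obtain ⟨x, hx, -, e, c⟩ := reflect_key ha hb hs h1 h2 m hn
    have e1 : app (V k) i ∈ B x ↔ app (V' k) i ∈ B x :=
      ((c _).trans (h1.c3 k m i (hs hi) n (hs hn))).trans
        ((c _).trans (h2.c3 k m i hi n hn)).symm
    rw [reflect_pull ha hb hba h1 h2 hu k hi, mem_Ex]
    constructor
    · rintro ⟨-, -, w, hw, w1, w2⟩
      rw [ha.s0 w hw x (hs hx) (w1.symm.trans e)] at w2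
      exact e ▸ mem_inter.2 ⟨e1.1 w2, reflect_vC ha hba ((h2.v1 k).app_mem' hi)⟩
    · intro h
      exact ⟨(h1.u1 m).app_mem' (hs hn), (h1.v1 k).app_mem' (hs hi), x, hs hx, e,
        e1.2 (mem_inter.1 (e ▸ h)).1⟩

theorem real_enum {w : ZFSet.{u}} (h1 : card w ≤ card om) (h2 : ∃ g, g ∈ w) :
    ∃ U : ℕ → ZFSet.{u}, ∀ g, g ∈ w ↔ ∃ m, U m = g := by
  obtain ⟨g0, h2⟩ := h2
  have : Nonempty w := ⟨⟨g0, h2⟩⟩
  have : Countable w := mk_le_aleph0_iff.1 (by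
    rw [cardinalMk_coe_sort, lift_le_aleph0, ← card_om]
    exact h1)
  obtain ⟨f, hf⟩ := exists_surjective_nat w
  refine ⟨fun m => (f m).1, fun g => ⟨fun hg => ?_, ?_⟩⟩
  · obtain ⟨m, hm⟩ := hf ⟨g, hg⟩
    exact ⟨m, congrArg Subtype.val hm⟩
  · rintro ⟨m, rfl⟩
    exact (f m).2

theorem real (ht : Regular Set.univ t) (hw : ∀ e ∈ t, card e ^ ℵ₀ < card t)
    (h : ∀ᶠ L in cf t (unc_of_regular ht), Good t B L) :
    ∀ᶠ a in cf t (unc_of_regular ht), Unc a → Real B a := by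
  by_contra h0
  obtain ⟨j, hj⟩ := fr_const (ι := ℕ ⊕ (ℕ × ℕ) ⊕ (ℕ × ℕ)) ht hw
    (fun j a => Good t B a ∧ ∃ (U V : ℕ → ZFSet.{u}) (u v : ZFSet.{u}), Coded B a U V j ∧
      (∀ g, g ∈ u ↔ ∃ m, U m = g) ∧ (∀ g, g ∈ v ↔ ∃ k, V k = g) ∧
      ∃ i ∈ a, ∀ b ∈ a, i ∈ b → ¬ InT a u v (Ex B a) b)
    (((not_eventually.1 h0).and_eventually h).mono fun a ⟨h1, ha⟩ => by
      obtain ⟨hu, h2⟩ := Classical.not_imp.1 h1
      simp only [Real, not_forall, not_exists, not_and] at h2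
      obtain ⟨u, v, Q, c1, c2, ⟨y, c3⟩, c4, i, hi, c5⟩ := h2
      obtain ⟨U, hU⟩ := real_enum c1.1 ((c1.2.2 _ (low_lev ha.ord)).imp fun _ h => h.1)
      obtain ⟨V, hV⟩ := real_enum c4.1 ((c4.2.2 _ c3).imp fun _ h => h.1)
      have u0 := fun m => c1.2.1 _ ((hU _).2 ⟨m, rfl⟩)
      have v0 := fun m => c4.2.1 _ ((hV _).2 ⟨m, rfl⟩)
      obtain ⟨j, j1, j2⟩ := exists_coded ha (fun m => (u0 m).1) (fun m => (u0 m).2)
        (fun x hx => by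
          obtain ⟨g, g1, g2⟩ := c1.2.2 x hx
          obtain ⟨m, rfl⟩ := (hU g).1 g1
          exact ⟨m, g2⟩) (fun k => (v0 k).1) fun k => ⟨fun z hz => by
            obtain ⟨x, hx, y, hy, rfl⟩ := mem_prod.1 ((v0 k).2.1 hz)
            exact pair_mem_prod.2 ⟨hx, c2 hy⟩, (v0 k).2.2⟩
      exact ⟨hu, j, j1, ha, U, V, u, v, j2, hU, hV, i, hi, c5⟩)
  obtain ⟨a, ⟨-, ha, U, V, u, v, a1, a2, a3, i, hi, a4⟩, h1⟩ :=
    (hj.and_eventually (fr_lim ht hj)).exists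
  obtain ⟨b, b1, b2, -, hb, U', V', -, -, b3, -⟩ := h1 i hi
  exact a4 b b1 b2 (reflect ha hb b1 a1 b3 a2 a3)

end Pool.Agent.MP_ecfd11_lc.H3E
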