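import Pool.Agent.MP_ecfd11_lc.H3E.LemA
import Pool.Agent.MP_ecfd11_lc.H3E.Sys
import Pool.Agent.MP_ecfd11_lc.H3E.Real
import Pool.Agent.MP_ecfd11_lc.H3E.CF

/-!
The extenders are in HOD.
-/

set_option synthInstance.maxSize 4000

namespace Pool.Agent.MP_ecfd11_lc.H3E

open Pool.Agent.MP_ecfd11_lc.H20 Pool.Agent.MP_ecfd11_lc.H13X Pool.Agent.MP_ecfd11_lc.H3U

universe u

open ZFSet Cardinal Function Filter

variable {t a : ZFSet.{u}} {B : ZFSet.{u} → ZFSet.{u}}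

theorem assembly (h : Good t B a) (hu : Unc a) (hs : SL a) (hr : Real B a) (h1 : Succ a (Lev a))
    (h2 : Succ (Lev a) (Lev (insert a a))) (h3 : card (Lev (insert a a)) ≤ card a) :
    HOD Set.univ (Ex B a) := by
  have ao := h.ord
  have hL := hod_Lev ao
  have hP := hod_Lev (ord_succ ao)
  have hZ := hod_prod hL hP
  have := hod_tm hL
  have := hod_tm hP
  have hc : card (Lev a) ≤ card a := card_le_of_surj (fun x => B x ∩ vC Set.univ a)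
    fun A hA => (h.tr A hA).imp fun x hx => ⟨hx.1, hx.2.symm⟩
  rcases cf_cases hs (hod_ord ao) h1 hc with ⟨u, hu'⟩ | ⟨n, c, f, n1, c1, c2, f0, f1, f2, f3⟩
  swap
  · have := hod_tm f0
    refine lemB hs.sl hs.unc n1 c1 c2 hZ (fun r => prod (img (app f) r) (Lev (insert a a)))
      (fun z hz => ?_) Ex_sub h.apx fun r hr => ?_
    · obtain ⟨x, hx, y, hy, rfl⟩ := mem_prod.1 hz
      obtain ⟨r, r1, rfl⟩ := f2 x hx
      exact ⟨r, r1, fun s _ hs => pair_mem_prod.2 ⟨mem_img.2 ⟨r, hs, rfl⟩, hy⟩⟩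
    · obtain ⟨G, g0, g1, g2⟩ := f3 r hr
      refine h.am g0 g1 (hod_prod (hod_img (hod_ord (n1.1.mem hr)).self _ fun i hi =>
        hL.mem (f1 i (n1.1.mem_trans hi hr))) hP) fun x y hxy => ?_
      obtain ⟨i, hi, rfl⟩ := mem_img.1 (pair_mem_prod.1 hxy).1
      obtain ⟨z, z1, z2⟩ := g2 i hi
      exact ⟨z, z2 ▸ g1.app_mem z1⟩
  have key : ∀ Q w, HOD Set.univ Q → Q ⊆ Lev (insert a a) → (∃ y, y ∈ Q) → Cov (Lev a) Q w →
      HOD Set.univ (Ex B a ∩ prod (Lev a) Q) := fun Q w q0 q1 q2 hw => by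
    obtain ⟨v, hv⟩ := hu'.comp (hod_ord ao) hw
    refine lemA hs hu q0 hu' hv (fun _ hz => (mem_inter.1 hz).2) (fun W w0 w1 w2 => ?_)
      fun i hi => ?_
    · have e : Ex B a ∩ prod (Lev a) Q ∩ W = Ex B a ∩ W := ZFSet.ext fun z => by
        simp only [mem_inter]
        exact ⟨fun h => ⟨h.1.1, h.2⟩, fun h => ⟨⟨h.1, w1 h.2⟩, h.2⟩⟩
      refine e ▸ h.apx W w0 (fun z hz => ?_) w2
      obtain ⟨x, hx, y, hy, rfl⟩ := mem_prod.1 (w1 hz)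
      exact pair_mem_prod.2 ⟨hx, q1 hy⟩
    · obtain ⟨b, b1, b2, b3, b4⟩ := hr u v Q hu' q1 q2 hv i hi
      refine ⟨b, b1, b2, b3, fun x y hx hy => ?_⟩
      rw [← b4 x y hx hy, mem_inter]
      obtain ⟨g, g1, i, -, g2⟩ := hx
      obtain ⟨g', g3, i', -, g4⟩ := hy
      exact and_iff_left (pair_mem_prod.2 ⟨(pair_mem_prod.1 ((hu'.2.1 g g1).2.1 g2)).2,
        (pair_mem_prod.1 ((hv.2.1 g' g3).2.1 g4)).2⟩)
  have h0 : ∀ l : ZFSet.{u}, l.IsOrdinal → ∅ ∈ Lev l := fun l hl =>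
    (mem_Lev hl).2 ⟨empty_subset _, hod_ord isOrdinal_empty⟩
  rcases cf_cases hs hL h2 h3 with ⟨w, hw⟩ | ⟨n, c, f, n1, c1, c2, f0, f1, f2, f3⟩
  · have e : Ex B a ∩ prod (Lev a) (Lev (insert a a)) = Ex B a := ZFSet.ext fun z =>
      mem_inter.trans (and_iff_left_of_imp fun hz => Ex_sub hz)
    exact e ▸ key _ w hP subset_rfl ⟨_, h0 _ (ord_succ ao)⟩ hw
  have := hod_tm f0
  refine lemB hs.sl hs.unc n1 c1 c2 hZ (fun r => prod (Lev a) (img (app f) r))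
    (fun z hz => ?_) Ex_sub h.apx fun r hr => ?_
  · obtain ⟨x, hx, y, hy, rfl⟩ := mem_prod.1 hz
    obtain ⟨r, r1, rfl⟩ := f2 y hy
    exact ⟨r, r1, fun s _ hs => pair_mem_prod.2 ⟨hx, mem_img.2 ⟨r, hs, rfl⟩⟩⟩
  · obtain ⟨G, g0, g1, g2⟩ := f3 r hr
    obtain ⟨q0, q1⟩ := cov_ran hL g0 g1
    have : Tm Set.univ On (fun _ => r) := Tm.ofOrd (n1.1.mem hr)
    have e : Ex B a ∩ prod (Lev a) (img (app G) (Lev a)) ∩ prod (Lev a) (img (app f) r) =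
        Ex B a ∩ prod (Lev a) (img (app f) r) := ZFSet.ext fun z => by
      simp only [mem_inter]
      refine ⟨fun h => ⟨h.1.1, h.2⟩, fun h => ⟨⟨h.1, ?_⟩, h.2⟩⟩
      obtain ⟨x, hx, y, hy, rfl⟩ := mem_prod.1 h.2
      obtain ⟨i, hi, rfl⟩ := mem_img.1 hy
      exact pair_mem_prod.2 ⟨hx, mem_img.2 (g2 i hi)⟩
    refine e ▸ hod_inter (key _ _ q0 (fun y hy => ?_) ⟨_, mem_img.2 ⟨_, h0 a ao, rfl⟩⟩ q1)
      (od_iff.2 inferInstance)
    obtain ⟨z, hz, rfl⟩ := mem_img.1 hy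
    exact g1.app_mem' hz

theorem card_Lev {l e : ZFSet.{u}} (hs : StronglyMeasurable Set.univ (succCard l))
    (he : e ∈ succCard l) : card (Lev e) ≤ card l := by
  have eo := (succCard_ord l).mem he
  refine Order.lt_succ_iff.1 ?_
  rw [← card_succCard]
  exact lt_of_le_of_lt (card_mono fun A hA => mem_sep.2 ⟨mem_powerset.2 ((mem_Lev eo).1 hA).1,
    ((mem_Lev eo).1 hA).2⟩) (few_hod hs he)

theorem main {d x t : ZFSet.{u}} (hd : StronglyCompact d t) (hdt : d ∈ t) (hx : x ∈ t)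
    (ht : Regular Set.univ t) (hw : ∀ e ∈ t, card e ^ ℵ₀ < card t)
    (hs : ∀ l, x ∈ l → l ⊆ succCard t → Regular Set.univ l → StronglyMeasurable Set.univ l) :
    ∃ c, Club t c ∧ ∀ a ∈ c, (card a).IsStrongLimit →
      ¬ Regular Set.univ (card a).ord.toZFSet → ¬ CofOmega Set.univ a →
      Succ a (Lev a) → Succ (Lev a) (Lev (insert a a)) →
      ∃ (N : Set ZFSet.{u}) (j : ZFSet.{u} → ZFSet.{u}) (E : ZFSet.{u}), Near t N ∧
        Elem {y | HOD Set.univ y} N j ∧ (∀ y ∈ a, j y = y) ∧ j a = t ∧ HOD Set.univ E ∧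
        ∀ y z, pair y z ∈ E ↔ y ∈ Lev a ∧ z ∈ Lev (insert a a) ∧ z ∈ j y := by
  have hu := unc_of_regular ht
  have h5 : ∀ a : ZFSet.{u}, a.IsOrdinal → a ∈ succCard a := fun a ha =>
    mem_succCard.2 ⟨ha, le_rfl⟩
  have h6 : ∀ a : ZFSet.{u}, a.IsOrdinal → x ∈ a → a ⊆ t → ℵ₀ ≤ card a →
      StronglyMeasurable Set.univ (succCard a) := fun a ha h1 h2 h3 =>
    hs _ ((succCard_ord a).mem_trans h1 (h5 a ha)) (fun z hz => mem_succCard.2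
      ⟨(mem_succCard.1 hz).1, (mem_succCard.1 hz).2.trans (card_mono h2)⟩) (regular_succCard h3)
  have hst := hs t hx ((succCard_ord t).subset_of_mem (h5 t ht.1)) ht
  obtain ⟨B, hB⟩ := system hd hdt hst
    (card_Lev (h6 t ht.1 hx subset_rfl ht.aleph0_lt.le) (h5 t ht.1)) hw
  obtain ⟨c, c1, c2⟩ := (ev_iff hu).1
    (hB.and ((real ht hw (hB.mono fun _ h => h.1)).and (ev_above hu hx)))
  refine ⟨c, c1, fun a ha a1 a2 a3 a4 a5 => ?_⟩
  obtain ⟨⟨g, g1⟩, g2, g3⟩ := not_not.1 fun h => c2 a (mem_sep.2 ⟨c1.1 ha, h⟩) ha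
  have au := unc_of_not_cof g.ord g.lim g3 a3
  have sl := sl_of a1 a2 au
  have sm := h6 a g.ord g3 g.sub sl.unc.le
  obtain ⟨N, j, n1, n2, n3, n4, n5⟩ := g1 au
  refine ⟨N, j, Ex B a, n1, n2, n3, n4, assembly g au sl (g2 au) a4 a5
    (card_Lev sm ((unc_of_regular sm.1).succ_mem (h5 a g.ord))), fun y z => mem_Ex.trans
      (and_congr_right fun hy => and_congr_right fun _ => ⟨?_, fun hz => ?_⟩)⟩
  · rintro ⟨w, w1, rfl, w2⟩
    rwa [n5 w w1]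
  · obtain ⟨w, w1, rfl⟩ := g.tr y hy
    exact ⟨w, w1, rfl, n5 w w1 ▸ hz⟩

end Pool.Agent.MP_ecfd11_lc.H3E
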